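import Pool.Agent.Helper79.CF.Spec

set_option autoImplicit false

namespace Pool.Agent.Helper30.CF.AMB

open Finset
open Pool.Agent.Helper88.EL (ct)
open Pool.Agent.Helper79.CF

lemma one (u p : ℕ) (m : ℕ) : ((range m).filter
    (fun x => 2 ^ u ≤ ((2 ^ u + x) * p) % 2 ^ u + p)).card ≤ m * p / 2 ^ u := by
  have hu : 0 < 2 ^ u := Nat.pos_of_ne_zero (by positivity)
  induction m with
  | zero => simp
  | succ m ih =>
    rw [range_add_one, filter_insert]
    have hmod : ((2 ^ u + m) * p) % 2 ^ u = (m * p) % 2 ^ u := by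
      rw [add_mul, Nat.mul_add_mod]
    have hdm := Nat.div_add_mod (m * p) (2 ^ u)
    split_ifs with h
    · rw [card_insert_of_notMem (by simp)]
      rw [hmod] at h
      have : m * p / 2 ^ u + 1 ≤ (m + 1) * p / 2 ^ u := by
        rw [Nat.le_div_iff_mul_le hu]
        calc (m * p / 2 ^ u + 1) * 2 ^ u = 2 ^ u * (m * p / 2 ^ u) + 2 ^ u := by ring
          _ ≤ 2 ^ u * (m * p / 2 ^ u) + (m * p % 2 ^ u + p) := by omega
          _ = (m + 1) * p := by rw [← add_assoc, hdm]; ring
      omega
    · refine ih.trans (Nat.div_le_div_right ?_)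
      exact Nat.mul_le_mul_right _ (Nat.le_succ m)

theorem main : S_AMB := by
  intro P u N
  have hu : 0 < 2 ^ u := Nat.pos_of_ne_zero (by positivity)
  induction N with
  | zero => simp [ct]
  | succ N ih =>
    rw [sum_range_succ]
    refine le_trans ?_ (Nat.add_le_add_right ih _)
    have h1 := one u (P (N + 1)) (2 ^ u)
    rw [Nat.mul_div_cancel_left _ hu] at h1
    refine le_trans ?_ (Nat.add_le_add_left h1 _)
    unfold ct
    refine le_trans (card_le_card ?_) (card_union_le _ _)
    intro x hx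
    simp only [mem_filter, mem_union, decide_eq_true_eq] at hx ⊢
    obtain ⟨hx1, n, hn, hx2⟩ := hx
    rcases Nat.lt_succ_iff_lt_or_eq.mp hn with h | h
    · exact Or.inl ⟨hx1, n, h, hx2⟩
    · subst h
      refine Or.inr ⟨hx1, ?_⟩
      simpa [amb] using hx2

end Pool.Agent.Helper30.CF.AMB
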